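import Mathlib

set_option autoImplicit false

/-! No countable group contains a copy of every two-generator orderable group; in particular there
is no universal countable right-orderable group.

For every set `S` of natural numbers we build a bi-ordered group `GS S` with two marked elements
`a`, `b` such that `b` commutes with `a ^ (n+1) * b * a ^ -(n+1)` exactly when `n ∉ S`. A countable
group containing copies of all the two-generator subgroups `⟨a, b⟩` would give an injection of
the power set of `ℕ` into a countable set. -/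

namespace Pool.Agent.Results.MP_49314d_al.NoUniversal

/-- shift of a finitely supported function on `ℤ` -/
noncomputable def sh (k : ℤ) (u : ℤ →₀ ℤ) : ℤ →₀ ℤ := Finsupp.equivMapDomain (Equiv.addRight k) u

lemma sh_apply (k : ℤ) (u : ℤ →₀ ℤ) (i : ℤ) : sh k u i = u (i - k) := by
  simp [sh, Finsupp.equivMapDomain_apply, sub_eq_add_neg]

lemma sh_add (k : ℤ) (u v : ℤ →₀ ℤ) : sh k (u + v) = sh k u + sh k v := by
  ext i; simp [sh_apply]

lemma sh_zero (k : ℤ) : sh k 0 = 0 := by
  ext i; simp [sh_apply]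

lemma sh_zero' (u : ℤ →₀ ℤ) : sh 0 u = u := by
  ext i; simp [sh_apply]

lemma sh_sh (k l : ℤ) (u : ℤ →₀ ℤ) : sh k (sh l u) = sh (k + l) u := by
  ext i; simp [sh_apply, sub_sub]

lemma sh_neg (k : ℤ) (u : ℤ →₀ ℤ) : sh k (-u) = - sh k u := by
  ext i; simp [sh_apply]

lemma sh_single (k i a : ℤ) : sh k (Finsupp.single i a) = Finsupp.single (i + k) a := by
  simp [sh]

open Classical in
/-- the correlation of two finitely supported functions, at the positive distances in `S` -/
noncomputable def be (S : Set ℕ) (u v : ℤ →₀ ℤ) (n : ℕ) : ℤ :=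
  if n ∈ S then u.sum (fun i a => a * v (i + n + 1)) else 0

lemma be_of_mem {S : Set ℕ} {n : ℕ} (h : n ∈ S) (u v : ℤ →₀ ℤ) :
    be S u v n = u.sum (fun i a => a * v (i + n + 1)) := if_pos h

lemma be_of_notMem {S : Set ℕ} {n : ℕ} (h : n ∉ S) (u v : ℤ →₀ ℤ) : be S u v n = 0 := if_neg h

lemma be_single {S : Set ℕ} {n : ℕ} (h : n ∈ S) (i j : ℤ) :
    be S (Finsupp.single i 1) (Finsupp.single j 1) n = if j = i + n + 1 then 1 else 0 := by
  rw [be_of_mem h, Finsupp.sum_single_index (by simp), Finsupp.single_apply]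
  simp

lemma be_add_left (S : Set ℕ) (u u' v : ℤ →₀ ℤ) : be S (u + u') v = be S u v + be S u' v := by
  funext n
  by_cases h : n ∈ S
  · simp only [be, h, if_true, Pi.add_apply]
    exact Finsupp.sum_add_index' (by simp) (by intros; ring)
  · simp [be, h]

lemma be_add_right (S : Set ℕ) (u v v' : ℤ →₀ ℤ) : be S u (v + v') = be S u v + be S u v' := by
  funext n
  by_cases h : n ∈ S
  · simp only [be, h, if_true, Pi.add_apply]
    rw [← Finsupp.sum_add]
    refine Finsupp.sum_congr ?_
    intro i _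
    simp [mul_add]
  · simp [be, h]

lemma be_sh (S : Set ℕ) (k : ℤ) (u v : ℤ →₀ ℤ) : be S (sh k u) (sh k v) = be S u v := by
  funext n
  by_cases h : n ∈ S
  · simp only [be, h, if_true]
    rw [sh, Finsupp.sum_equivMapDomain]
    refine Finsupp.sum_congr ?_
    intro i _
    rw [sh_apply]
    congr 2
    simp only [Equiv.coe_addRight]
    ring
  · simp [be, h]

lemma be_zero_left (S : Set ℕ) (v : ℤ →₀ ℤ) : be S 0 v = 0 := by
  funext n; simp [be]

lemma be_zero_right (S : Set ℕ) (v : ℤ →₀ ℤ) : be S v 0 = 0 := by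
  funext n; simp [be]

lemma be_neg_left (S : Set ℕ) (u v : ℤ →₀ ℤ) : be S (-u) v = - be S u v := by
  have := be_add_left S (-u) u v
  rw [neg_add_cancel, be_zero_left] at this
  exact eq_neg_of_add_eq_zero_left this.symm

/-- The group `GS S`: triples `(k, u, c)` with
`(k, u, c) (k', u', c') = (k + k', u + sh k u', c + c' + be S u (sh k u'))`. -/
@[ext] structure GS (S : Set ℕ) where
  k : ℤ
  u : ℤ →₀ ℤ
  c : ℕ → ℤ

variable {S : Set ℕ}

noncomputable instance : Mul (GS S) :=
  ⟨fun x y => ⟨x.k + y.k, x.u + sh x.k y.u, x.c + y.c + be S x.u (sh x.k y.u)⟩⟩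

noncomputable instance : One (GS S) := ⟨⟨0, 0, 0⟩⟩

noncomputable instance : Inv (GS S) :=
  ⟨fun x => ⟨-x.k, - sh (-x.k) x.u, -x.c + be S x.u x.u⟩⟩

lemma mul_k (x y : GS S) : (x * y).k = x.k + y.k := rfl
lemma mul_u (x y : GS S) : (x * y).u = x.u + sh x.k y.u := rfl
lemma mul_c (x y : GS S) : (x * y).c = x.c + y.c + be S x.u (sh x.k y.u) := rfl
lemma one_k : (1 : GS S).k = 0 := rfl
lemma one_u : (1 : GS S).u = 0 := rfl
lemma one_c : (1 : GS S).c = 0 := rfl
lemma inv_k (x : GS S) : (x⁻¹).k = -x.k := rfl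
lemma inv_u (x : GS S) : (x⁻¹).u = - sh (-x.k) x.u := rfl
lemma inv_c (x : GS S) : (x⁻¹).c = -x.c + be S x.u x.u := rfl

noncomputable instance : Group (GS S) := by
  refine Group.ofLeftAxioms ?_ ?_ ?_
  · intro x y z
    ext1
    · simp only [mul_k]; ring
    · simp only [mul_u, mul_k, sh_add, sh_sh, add_assoc]
    · simp only [mul_c, mul_u, mul_k, sh_add, be_add_left, be_add_right, ← sh_sh]
      rw [be_sh]
      abel
  · intro x
    ext1
    · simp [mul_k, one_k]
    · simp [mul_u, one_u, one_k, sh_zero']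
    · simp [mul_c, one_c, one_u, one_k, sh_zero', be_zero_left]
  · intro x
    ext1
    · simp [mul_k, inv_k, one_k]
    · simp [mul_u, inv_u, inv_k, one_u]
    · simp only [mul_c, inv_c, inv_u, inv_k, one_c, be_neg_left, be_sh]
      abel

/-- the embedding of the underlying set in a lexicographic product of ordered abelian groups -/
noncomputable def key (x : GS S) : ℤ ×ₗ (Lex (ℤ →₀ ℤ) ×ₗ Lex (ℕ → ℤ)) :=
  toLex (x.k, toLex (toLex x.u, toLex x.c))

lemma key_injective : Function.Injective (key (S := S)) := by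
  intro x y h
  have h1 : x.k = y.k := congrArg (fun z => (ofLex z).1) h
  have h0 : (ofLex (key x)).2 = (ofLex (key y)).2 := by rw [h]
  have h2 : x.u = y.u := congrArg (fun z : Lex (ℤ →₀ ℤ) ×ₗ Lex (ℕ → ℤ) => ofLex (ofLex z).1) h0
  have h3 : x.c = y.c := congrArg (fun z : Lex (ℤ →₀ ℤ) ×ₗ Lex (ℕ → ℤ) => ofLex (ofLex z).2) h0
  exact GS.ext h1 h2 h3

noncomputable instance : LinearOrder (GS S) := LinearOrder.lift' key key_injective

lemma lt_iff (x y : GS S) : x < y ↔ x.k < y.k ∨ (x.k = y.k ∧ (toLex x.u < toLex y.u ∨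
    (x.u = y.u ∧ toLex x.c < toLex y.c))) := by
  have h0 : x < y ↔ key x < key y := Iff.rfl
  rw [h0, key, key, Prod.Lex.toLex_lt_toLex]
  simp only [Prod.Lex.toLex_lt_toLex, EmbeddingLike.apply_eq_iff_eq]

lemma sh_lt (k : ℤ) {u v : ℤ →₀ ℤ} (h : toLex u < toLex v) : toLex (sh k u) < toLex (sh k v) := by
  rw [Finsupp.Lex.lt_iff] at h ⊢
  obtain ⟨i, h1, h2⟩ := h
  refine ⟨i + k, ?_, ?_⟩
  · intro j hj
    have := h1 (j - k) (by linarith)
    simpa [sh_apply] using this
  · simpa [sh_apply] using h2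

lemma lt_mul_left {x y : GS S} (z : GS S) (h : x < y) : z * x < z * y := by
  rw [lt_iff] at h ⊢
  simp only [mul_k, mul_u, mul_c]
  rcases h with h | ⟨h1, h | ⟨h2, h⟩⟩
  · left; linarith
  · right
    refine ⟨by rw [h1], Or.inl ?_⟩
    rw [toLex_add, toLex_add]
    exact add_lt_add_right (sh_lt _ h) _
  · right
    refine ⟨by rw [h1], Or.inr ⟨by rw [h2], ?_⟩⟩
    rw [h2, toLex_add, toLex_add, toLex_add, toLex_add]
    exact add_lt_add_left (add_lt_add_right h _) _

lemma lt_mul_right {x y : GS S} (z : GS S) (h : x < y) : x * z < y * z := by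
  rw [lt_iff] at h ⊢
  simp only [mul_k, mul_u, mul_c]
  rcases h with h | ⟨h1, h | ⟨h2, h⟩⟩
  · left; linarith
  · right
    refine ⟨by rw [h1], Or.inl ?_⟩
    rw [h1, toLex_add, toLex_add]
    exact add_lt_add_left h _
  · right
    refine ⟨by rw [h1], Or.inr ⟨by rw [h1, h2], ?_⟩⟩
    rw [h1, h2, toLex_add, toLex_add, toLex_add, toLex_add]
    exact add_lt_add_left (add_lt_add_left h _) _

/-- the generator `a` -/
noncomputable def ga (S : Set ℕ) : GS S := ⟨1, 0, 0⟩
/-- the generator `b` -/
noncomputable def gb (S : Set ℕ) : GS S := ⟨0, Finsupp.single 0 1, 0⟩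

/-- the test word `b (a ^ (n+1) b a ^ -(n+1))` against `(a ^ (n+1) b a ^ -(n+1)) b` -/
def Comm {G : Type*} [Group G] (a b : G) (n : ℕ) : Prop :=
  b * (a ^ (n + 1) * b * (a ^ (n + 1))⁻¹) = (a ^ (n + 1) * b * (a ^ (n + 1))⁻¹) * b

lemma ga_pow (n : ℕ) : (ga S) ^ n = ⟨n, 0, 0⟩ := by
  induction n with
  | zero => rfl
  | succ n ih =>
    rw [pow_succ, ih]
    ext1
    · simp [mul_k, ga]
    · simp [mul_u, ga, sh_zero]
    · simp [mul_c, ga, be_zero_left]

lemma conj_gb (n : ℕ) : (ga S) ^ n * gb S * ((ga S) ^ n)⁻¹ = ⟨0, Finsupp.single (n : ℤ) 1, 0⟩ := by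
  rw [mul_inv_eq_iff_eq_mul, ga_pow]
  ext1
  · simp [mul_k, gb]
  · simp [mul_u, gb, sh_single, sh_zero]
  · simp [mul_c, gb, be_zero_left, be_zero_right, sh_zero]

lemma comm_iff (n : ℕ) : Comm (ga S) (gb S) n ↔ n ∉ S := by
  have h1 : (gb S * ⟨0, Finsupp.single ((n + 1 : ℕ) : ℤ) 1, 0⟩ : GS S).c =
      be S (Finsupp.single 0 1) (Finsupp.single ((n + 1 : ℕ) : ℤ) 1) := by
    simp only [mul_c, gb, sh_zero', zero_add]
  have h2 : ((⟨0, Finsupp.single ((n + 1 : ℕ) : ℤ) 1, 0⟩ : GS S) * gb S).c = 0 := by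
    funext m
    simp only [mul_c, gb, sh_zero', zero_add, Pi.zero_apply]
    by_cases h : m ∈ S
    · rw [be_single h, if_neg]
      push_cast; omega
    · exact be_of_notMem h _ _
  rw [Comm, conj_gb]
  constructor
  · intro h hn
    have h3 := congrFun (congrArg GS.c h) n
    rw [h1, h2, be_single hn, if_pos (by push_cast; ring)] at h3
    simp at h3
  · intro hn
    ext1
    · simp [mul_k, gb]
    · simp only [mul_u, gb, sh_zero']
      rw [add_comm]
    · rw [h1, h2]
      funext m
      by_cases h : m ∈ S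
      · rw [be_single h, if_neg, Pi.zero_apply]
        intro h3
        apply hn
        have : m = n := by push_cast at h3; omega
        rwa [← this]
      · exact be_of_notMem h _ _

/-- the two-generator subgroup -/
noncomputable def HS (S : Set ℕ) : Subgroup (GS S) := Subgroup.closure {ga S, gb S}

/-- the generator `a` in the subgroup -/
noncomputable def ha (S : Set ℕ) : HS S := ⟨ga S, Subgroup.subset_closure (by simp)⟩
/-- the generator `b` in the subgroup -/
noncomputable def hb (S : Set ℕ) : HS S := ⟨gb S, Subgroup.subset_closure (by simp)⟩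

lemma comm_of_injective {G K : Type*} [Group G] [Group K] (f : G →* K) (hf : Function.Injective f)
    (a b : G) (n : ℕ) : Comm (f a) (f b) n ↔ Comm a b n := by
  unfold Comm
  rw [← hf.eq_iff]
  simp only [map_mul, map_pow, map_inv]

lemma comm_HS (n : ℕ) : Comm (ha S) (hb S) n ↔ n ∉ S := by
  rw [← comm_iff, ← comm_of_injective (HS S).subtype (HS S).subtype_injective]
  rfl

lemma closure_HS (S : Set ℕ) : Subgroup.closure {ha S, hb S} = ⊤ := by
  have h : (Subgroup.closure {ha S, hb S}).map (HS S).subtype = (⊤ : Subgroup (HS S)).map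
      (HS S).subtype := by
    rw [MonoidHom.map_closure, Set.image_pair, ← MonoidHom.range_eq_map, Subgroup.range_subtype]
    rfl
  exact Subgroup.map_injective (HS S).subtype_injective h

/-- Every countable group `U` omits some two-generator (hence countable) bi-orderable (hence right
orderable) group: there is no countable group, right-orderable or not, into which every countable
right-orderable group embeds. -/
theorem result (U : Type*) [Group U] [Countable U] :
    ∃ (G : Type) (_ : Group G), Countable G ∧ (∃ a b : G, Subgroup.closure {a, b} = ⊤) ∧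
      (∃ r : LinearOrder G, ∀ x y z : G, r.le x y → r.le (x * z) (y * z) ∧ r.le (z * x) (z * y)) ∧
      ¬ ∃ f : G →* U, Function.Injective f := by
  by_contra hcon
  have key : ∀ S : Set ℕ, ∃ f : HS S →* U, Function.Injective f := by
    intro S
    by_contra hS
    apply hcon
    refine ⟨HS S, inferInstance, ?_, ⟨ha S, hb S, closure_HS S⟩, ⟨inferInstance, ?_⟩, hS⟩
    · have hsur : Function.Surjective
          (FreeGroup.lift (fun x : ({ha S, hb S} : Set (HS S)) => (x : HS S))) := by
        rw [← MonoidHom.range_eq_top, FreeGroup.range_lift_eq_closure, Subtype.range_coe,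
          closure_HS]
      have : Countable (FreeGroup ({ha S, hb S} : Set (HS S))) := by
        unfold FreeGroup
        infer_instance
      exact hsur.countable
    · intro x y z hxy
      rcases (show x ≤ y from hxy).eq_or_lt with h | h
      · subst h; exact ⟨le_rfl, le_rfl⟩
      · exact ⟨le_of_lt (lt_mul_right (z : GS S) h), le_of_lt (lt_mul_left (z : GS S) h)⟩
  choose f hf using key
  obtain ⟨e, he⟩ := exists_injective_nat (U × U)
  refine Function.cantor_injective (fun S : Set ℕ => e (f S (ha S), f S (hb S))) ?_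
  intro S S' h
  have h1 := he h
  simp only [Prod.mk.injEq] at h1
  ext n
  have h2 := comm_of_injective (f S) (hf S) (ha S) (hb S) n
  have h3 := comm_of_injective (f S') (hf S') (ha S') (hb S') n
  rw [h1.1, h1.2, h3, comm_HS, comm_HS] at h2
  exact not_iff_not.mp h2.symm

end Pool.Agent.Results.MP_49314d_al.NoUniversal
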